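import Mathlib
import Pool.Agent.H3.BI.Stm1

/-!
# Auxiliary lemmas for the parts LOW and LOC of project BD
-/

set_option autoImplicit false

open scoped ENNReal
open Finset MeasureTheory

namespace Pool.Agent.H24.BD

open Pool.Agent.H3.BI

variable {d : ℕ}

theorem sum_div_le_of_forall {ι : Type} [Fintype ι] (f g : ι → ℝ≥0∞) (c : ℝ≥0∞)
    (h : ∀ i, f i ≤ g i) : (∑ i, f i) / c ≤ (∑ i, g i) / c :=
  ENNReal.div_le_div_right (Finset.sum_le_sum fun i _ => h i) c

/-- The aggregate only grows. -/
theorem subset_arr (D : Set (Site d)) (y : Site d) (p : Cf d) : p.1 ⊆ (arr D y p).1 := by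
  unfold arr
  split_ifs
  · exact Subset.refl _
  · exact Subset.refl _
  · exact Finset.subset_insert _ _

theorem steps_zero_of (D : Set (Site d)) (x : Site d) (f : Cf d → ℝ≥0∞)
    (A0 : Finset (Site d)) (hf : ∀ p : Cf d, A0 ⊆ p.1 → f p = 0) :
    ∀ (k : ℕ) (p : Cf d), A0 ⊆ p.1 → steps D x k f p = 0 := by
  intro k
  induction k with
  | zero => intro p hp; exact hf p hp
  | succ k ih =>
    intro p hp
    have : ∀ e : Dir d, steps D x k f (arr D (x + uvec e) p) = 0 := fun e =>
      ih _ (hp.trans (subset_arr D _ p))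
    simp [steps, this]

/-- If `f` vanishes on all sets which contain `A0`, then all functionals vanish at aggregates
containing `A0`. -/
theorem Ph_zero_of (ν : PMF ℕ) (D : Set (Site d)) (f : Finset (Site d) → ℝ≥0∞)
    (A0 : Finset (Site d)) (hf : ∀ B, A0 ⊆ B → f B = 0) :
    ∀ (n : ℕ) (p : Cf d), A0 ⊆ p.1 → Ph ν D f n p = 0 := by
  intro n
  induction n with
  | zero =>
    rintro ⟨A, L⟩ hp
    cases L with
    | nil => simpa using hf A hp
    | cons x L => simp
  | succ n ih =>
    rintro ⟨A, L⟩ hp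
    cases L with
    | nil => simpa using hf A hp
    | cons x L =>
      rw [Ph_succ_cons]
      unfold top
      have : ∀ k, steps D x k (Ph ν D f n) (A, L) = 0 := fun k =>
        steps_zero_of D x _ A0 ih k _ hp
      simp [this]

/-- Monotonicity of `steps`. -/
theorem steps_mono (D : Set (Site d)) (x : Site d) (f g : Cf d → ℝ≥0∞) (h : ∀ p, f p ≤ g p) :
    ∀ (k : ℕ) (p : Cf d), steps D x k f p ≤ steps D x k g p := by
  intro k
  induction k with
  | zero => intro p; exact h p
  | succ k ih =>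
    intro p
    exact sum_div_le_of_forall _ _ _ fun e => ih _

theorem Ph_mono (ν : PMF ℕ) (D : Set (Site d)) (f g : Finset (Site d) → ℝ≥0∞)
    (h : ∀ A, f A ≤ g A) : ∀ (n : ℕ) (p : Cf d), Ph ν D f n p ≤ Ph ν D g n p := by
  intro n
  induction n with
  | zero =>
    rintro ⟨A, L⟩
    cases L with
    | nil => simpa using h A
    | cons x L => simp
  | succ n ih =>
    rintro ⟨A, L⟩
    cases L with
    | nil => simpa using h A
    | cons x L =>
      rw [Ph_succ_cons, Ph_succ_cons]
      unfold top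
      exact ENNReal.tsum_le_tsum fun k => mul_le_mul_right (steps_mono D x _ _ ih k _) _

theorem KD_mono (ν : PMF ℕ) (D : Set (Site d)) (f g : Finset (Site d) → ℝ≥0∞)
    (h : ∀ A, f A ≤ g A) (A : Finset (Site d)) : KD ν D f A ≤ KD ν D g A :=
  iSup_mono fun n => Ph_mono ν D f g h n _

theorem Eg_mono (ν : PMF ℕ) (D : ℕ → Set (Site d)) :
    ∀ (n : ℕ) (f g : Finset (Site d) → ℝ≥0∞), (∀ A, f A ≤ g A) → Eg ν D n f ≤ Eg ν D n g := by
  intro n
  induction n with
  | zero => intro f g h; exact h _
  | succ n ih =>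
    intro f g h
    exact ih _ _ fun A => KD_mono ν _ _ _ (fun B => mul_le_mul_right (h B) _) A

theorem steps_mul (D : Set (Site d)) (x : Site d) (f : Cf d → ℝ≥0∞) (c : ℝ≥0∞) :
    ∀ (k : ℕ) (p : Cf d), steps D x k (fun q => c * f q) p = c * steps D x k f p := by
  intro k
  induction k with
  | zero => intro p; rfl
  | succ k ih =>
    intro p
    simp only [steps, ih]
    rw [← Finset.mul_sum, mul_div_assoc]

theorem Ph_mul (ν : PMF ℕ) (D : Set (Site d)) (f : Finset (Site d) → ℝ≥0∞) (c : ℝ≥0∞) :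
    ∀ (n : ℕ) (p : Cf d), Ph ν D (fun A => c * f A) n p = c * Ph ν D f n p := by
  intro n
  induction n with
  | zero =>
    rintro ⟨A, L⟩
    cases L with
    | nil => simp
    | cons x L => simp
  | succ n ih =>
    rintro ⟨A, L⟩
    cases L with
    | nil => simp
    | cons x L =>
      rw [Ph_succ_cons, Ph_succ_cons]
      have h1 : Ph ν D (fun A => c * f A) n = fun p => c * Ph ν D f n p := funext ih
      unfold top
      rw [h1, ← ENNReal.tsum_mul_left]
      refine tsum_congr fun k => ?_
      rw [steps_mul]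
      ring

theorem KD_mul (ν : PMF ℕ) (D : Set (Site d)) (f : Finset (Site d) → ℝ≥0∞) (c : ℝ≥0∞)
    (A : Finset (Site d)) : KD ν D (fun A => c * f A) A = c * KD ν D f A := by
  unfold KD
  rw [ENNReal.mul_iSup]
  exact iSup_congr fun n => Ph_mul ν D f c n _

theorem Eg_mul (ν : PMF ℕ) (D : ℕ → Set (Site d)) (c : ℝ≥0∞) :
    ∀ (n : ℕ) (f : Finset (Site d) → ℝ≥0∞), Eg ν D n (fun A => c * f A) = c * Eg ν D n f := by
  intro n
  induction n with
  | zero => intro f; rfl
  | succ n ih =>
    intro f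
    simp only [Eg]
    rw [← ih]
    congr 1
    funext A
    rw [← KD_mul]
    congr 1
    funext B
    ring

end Pool.Agent.H24.BD
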