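import Mathlib
import Pool.Agent.H3.BI.Stm1
import Pool.Agent.H24.BD.Elem

/-!
# Part LOW of project BD: the supermartingale for the lower tail
-/

set_option autoImplicit false

open scoped ENNReal
open Finset MeasureTheory

namespace Pool.Agent.H24.BD

open Pool.Agent.H3.BI

variable {d : ℕ}

/-- The functional of the lower tail. -/
noncomputable def fL (D : Set (Site d)) (z : Site d) (a : Site d → ℝ) (B : Finset (Site d)) :
    ℝ≥0∞ :=
  ind (fun B : Finset (Site d) => z ∉ B ∧ (B : Set (Site d)) ⊆ D) B *
        ENNReal.ofReal (Real.exp (-∑ y ∈ B, a y))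

theorem fL_bad (D : Set (Site d)) (z : Site d) (a : Site d → ℝ) (A : Finset (Site d))
    (hA : ¬ (z ∉ A ∧ (A : Set (Site d)) ⊆ D)) : ∀ B : Finset (Site d), A ⊆ B → fL D z a B = 0 := by
  intro B hB
  unfold fL ind
  rw [if_neg, zero_mul]
  rintro ⟨h1, h2⟩
  exact hA ⟨fun h => h1 (hB h), fun y hy => h2 (hB hy)⟩

theorem steps_le (ν : PMF ℕ) (D : Set (Site d)) (z : Site d) (a b : Site d → ℝ)
    (hba : ∀ x, b x ≤ a x) (n : ℕ)
    (ih : ∀ (A : Finset (Site d)) (L : List (Site d)), (∀ x ∈ L, x ∈ D ∧ x ≠ z) →
      Ph ν D (fL D z a) n (A, L) ≤ ENNReal.ofReal (Real.exp (-(∑ y ∈ A, a y + (L.map b).sum))))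
    (x : Site d) : ∀ (k : ℕ) (A : Finset (Site d)) (L : List (Site d)),
      (∀ x ∈ L, x ∈ D ∧ x ≠ z) →
      steps D x k (Ph ν D (fL D z a) n) (A, L) ≤
        ENNReal.ofReal (Real.exp (-(∑ y ∈ A, a y + (L.map b).sum)) *
          (PP (fun y => Real.exp (-b y)) x) ^ k) := by
  intro k
  induction k with
  | zero =>
    intro A L hL
    simpa [steps] using ih A L hL
  | succ k ihk =>
    intro A L hL
    by_cases hA : z ∉ A ∧ (A : Set (Site d)) ⊆ D
    · have hPP : 0 ≤ PP (fun y => Real.exp (-b y)) x := by
        unfold PP; positivity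
      set W : ℝ := Real.exp (-(∑ y ∈ A, a y + (L.map b).sum)) with hW
      have hWpos : 0 < W := Real.exp_pos _
      have key : ∀ e : Dir d, steps D x k (Ph ν D (fL D z a) n) (arr D (x + uvec e) (A, L)) ≤
          ENNReal.ofReal (W * (PP (fun y => Real.exp (-b y)) x) ^ k *
            Real.exp (-b (x + uvec e))) := by
        intro e
        set y := x + uvec e with hy
        unfold arr
        by_cases hyA : y ∈ A
        · have hyD : y ∈ D := hA.2 hyA
          have hyz : y ≠ z := fun h => hA.1 (h ▸ hyA)
          simp only [hyA, hyD, if_true]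
          refine (ihk A (y :: L) ?_).trans (ENNReal.ofReal_le_ofReal ?_)
          · intro t ht
            rcases List.mem_cons.1 ht with rfl | ht
            · exact ⟨hyD, hyz⟩
            · exact hL t ht
          · have : Real.exp (-(∑ y ∈ A, a y + ((y :: L).map b).sum)) = W * Real.exp (-b y) := by
              rw [hW, ← Real.exp_add]
              congr 1
              simp only [List.map_cons, List.sum_cons]
              ring
            rw [this]
            apply le_of_eq
            ring
        · simp only [hyA, if_false]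
          refine (ihk (insert y A) L hL).trans (ENNReal.ofReal_le_ofReal ?_)
          have h1 : Real.exp (-(∑ y ∈ insert y A, a y + (L.map b).sum)) ≤ W * Real.exp (-b y) := by
            rw [hW, ← Real.exp_add]
            apply Real.exp_le_exp.2
            rw [Finset.sum_insert hyA]
            have := hba y
            linarith
          calc _ ≤ (W * Real.exp (-b y)) * (PP (fun y => Real.exp (-b y)) x) ^ k :=
                mul_le_mul_of_nonneg_right h1 (pow_nonneg hPP k)
            _ = _ := by ring
      have h2 : steps D x (k + 1) (Ph ν D (fL D z a) n) (A, L) ≤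
          (∑ e : Dir d, ENNReal.ofReal (W * (PP (fun y => Real.exp (-b y)) x) ^ k *
            Real.exp (-b (x + uvec e)))) / (2 * d) := by
        simp only [steps]
        exact sum_div_le_of_forall _ _ _ key
      refine h2.trans ?_
      rw [← ENNReal.ofReal_sum_of_nonneg]
      · have h3 : ((2 : ℝ≥0∞) * d) = ENNReal.ofReal (2 * d) := by
          rw [ENNReal.ofReal_mul (by norm_num)]
          simp
        rcases Nat.eq_zero_or_pos d with hd | hd
        · subst hd
          have : IsEmpty (Dir 0) := by
            unfold Dir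
            infer_instance
          simp [PP]
        · have hd' : (0 : ℝ) < 2 * d := by positivity
          rw [h3, ← ENNReal.ofReal_div_of_pos hd']
          apply ENNReal.ofReal_le_ofReal
          apply le_of_eq
          rw [← Finset.mul_sum, pow_succ, ← mul_assoc, mul_div_assoc]
          rfl
      · intro e _
        positivity
    · have : steps D x (k + 1) (Ph ν D (fL D z a) n) (A, L) = 0 :=
        steps_zero_of D x _ A (Ph_zero_of ν D _ A (fL_bad D z a A hA) n) _ _ (Subset.refl _)
      rw [this]
      exact zero_le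

theorem PP_add (f g : Site d → ℝ) (x : Site d) :
    PP (fun y => f y + g y) x = PP f x + PP g x := by
  unfold PP
  rw [Finset.sum_add_distrib, add_div]

theorem PP_mono (f g : Site d → ℝ) (x : Site d) (h : ∀ y, f y ≤ g y) : PP f x ≤ PP g x := by
  unfold PP
  exact div_le_div_of_nonneg_right (Finset.sum_le_sum fun e _ => h _) (by positivity)

theorem PP_const (hd : 0 < d) (c : ℝ) (x : Site d) : PP (fun _ => c) x = c := by
  unfold PP
  rw [Finset.sum_const, Finset.card_univ]
  have : Fintype.card (Dir d) = d * 2 := by
    unfold Dir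
    simp
  rw [this]
  have : (d : ℝ) ≠ 0 := by positivity
  field_simp
  push_cast
  ring

theorem PP_sq_le (b : Site d → ℝ) (x : Site d) (hd : 0 < d) :
    PP b x ^ 2 ≤ PP (fun y => b y ^ 2) x := by
  unfold PP
  have h := sq_sum_le_card_mul_sum_sq (s := (Finset.univ : Finset (Dir d)))
    (f := fun e => b (x + uvec e))
  have hc : ((Finset.univ : Finset (Dir d)).card : ℝ) = 2 * d := by
    rw [Finset.card_univ]
    have : Fintype.card (Dir d) = d * 2 := by
      unfold Dir
      simp
    rw [this]
    push_cast
    ring
  rw [hc] at h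
  have hd' : (0 : ℝ) < 2 * d := by positivity
  rw [div_pow, div_le_div_iff₀ (by positivity) hd']
  nlinarith

theorem exp_neg_le_quad {t : ℝ} (ht : 0 ≤ t) : Real.exp (-t) ≤ 1 - t + t ^ 2 / 2 := by
  by_cases h1 : t ≤ 1
  · have h := Real.exp_bound' (x := t) ht h1 (n := 3) (by norm_num)
    have hlow : 1 + t + t ^ 2 / 2 ≤ Real.exp t := by
      exact Real.quadratic_le_exp_of_nonneg ht
    rw [Real.exp_neg]
    have hpos : 0 < 1 + t + t ^ 2 / 2 := by positivity
    have h2 : (Real.exp t)⁻¹ ≤ (1 + t + t ^ 2 / 2)⁻¹ := inv_anti₀ hpos hlow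
    refine h2.trans ?_
    rw [inv_le_iff_one_le_mul₀ hpos]
    nlinarith [sq_nonneg (t ^ 2), sq_nonneg t]
  · push Not at h1
    have hlow : 1 + t + t ^ 2 / 2 ≤ Real.exp t := Real.quadratic_le_exp_of_nonneg ht
    rw [Real.exp_neg]
    have hpos : 0 < 1 + t + t ^ 2 / 2 := by positivity
    have h2 : (Real.exp t)⁻¹ ≤ (1 + t + t ^ 2 / 2)⁻¹ := inv_anti₀ hpos hlow
    refine h2.trans ?_
    rw [inv_le_iff_one_le_mul₀ hpos]
    nlinarith [sq_nonneg (t ^ 2), sq_nonneg t]

/-- **Part LOW.** -/
theorem t_LOW : S_LOW := by
  intro hG ν hν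
  obtain ⟨C1, hC1, hgen⟩ := hG ν hν
  refine ⟨C1 + 1, by linarith, ?_⟩
  intro d hd D z a b hb n
  have hd0 : 0 < d := by omega
  induction n with
  | zero =>
    intro A L hL
    cases L with
    | nil =>
      rw [Ph_nil]
      unfold ind
      split_ifs
      · simp
      · simp
    | cons x L => simp
  | succ n ih =>
    intro A L hL
    cases L with
    | nil =>
      rw [Ph_nil]
      unfold ind
      split_ifs
      · simp
      · simp
    | cons x L =>
      rw [Ph_succ_cons]
      have hx := hL x (by simp)
      have hL' : ∀ t ∈ L, t ∈ D ∧ t ≠ z := fun t ht => hL t (by simp [ht])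
      have hst := fun k => steps_le ν D z a b hb.le n ih x k A L hL'
      set W : ℝ := Real.exp (-(∑ y ∈ A, a y + (L.map b).sum)) with hW
      set q : ℝ := PP (fun y => Real.exp (-b y)) x with hq
      have hWpos : 0 < W := Real.exp_pos _
      have hq0 : 0 ≤ q := by
        rw [hq]; unfold PP; positivity
      set s : ℝ := PP b x - PP (fun y => b y ^ 2) x / 2 with hs
      have hPb0 : 0 ≤ PP (fun y => b y ^ 2) x := by unfold PP; positivity
      have hPb : PP (fun y => b y ^ 2) x ≤ PP b x :=
        PP_mono _ _ x fun y => by nlinarith [hb.nn y, hb.le_one y]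
      have hPb1 : PP b x ≤ 1 := by
        have := PP_mono b (fun _ => 1) x hb.le_one
        rwa [PP_const hd0] at this
      have hs0 : 0 ≤ s := by rw [hs]; linarith
      have hs1 : s ≤ 1 := by rw [hs]; linarith
      have hqs : q ≤ 1 - s := by
        have h1 : q ≤ PP (fun y => (1 + (-1) * b y) + b y ^ 2 / 2) x := by
          rw [hq]
          refine PP_mono _ _ x fun y => ?_
          have := exp_neg_le_quad (hb.nn y)
          linarith
        have h2 : PP (fun y => (1 + (-1) * b y) + b y ^ 2 / 2) x = 1 - s := by
          rw [PP_add, PP_add, PP_const hd0]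
          have h3 : PP (fun y => (-1) * b y) x = - PP b x := by
            unfold PP
            rw [← Finset.mul_sum]
            ring
          have h4 : PP (fun y => b y ^ 2 / 2) x = PP (fun y => b y ^ 2) x / 2 := by
            unfold PP
            rw [← Finset.sum_div]
            ring
          rw [h3, h4, hs]
          ring
        rw [← h2]; exact h1
      have hmain : top ν D x (Ph ν D (fL D z a) n) (A, L) ≤
          ENNReal.ofReal W * ENNReal.ofReal (1 - s + C1 * s ^ 2) := by
        unfold top
        calc ∑' k : ℕ, ν k * steps D x k (Ph ν D (fL D z a) n) (A, L)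
            ≤ ∑' k : ℕ, ENNReal.ofReal W * (ν k * ENNReal.ofReal ((1 - s) ^ k)) := by
              refine ENNReal.tsum_le_tsum fun k => ?_
              calc ν k * steps D x k (Ph ν D (fL D z a) n) (A, L)
                  ≤ ν k * ENNReal.ofReal (W * q ^ k) := mul_le_mul_right (hst k) _
                _ ≤ ν k * ENNReal.ofReal (W * (1 - s) ^ k) := by
                    refine mul_le_mul_right (ENNReal.ofReal_le_ofReal ?_) _
                    exact mul_le_mul_of_nonneg_left (pow_le_pow_left₀ hq0 hqs k) hWpos.le
                _ = _ := by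
                    rw [ENNReal.ofReal_mul hWpos.le]
                    ring
          _ = ENNReal.ofReal W * ∑' k : ℕ, ν k * ENNReal.ofReal ((1 - s) ^ k) :=
              ENNReal.tsum_mul_left
          _ ≤ _ := mul_le_mul_right (hgen s hs0 hs1) _
      refine hmain.trans ?_
      rw [← ENNReal.ofReal_mul hWpos.le]
      apply ENNReal.ofReal_le_ofReal
      have h5 : 1 - s + C1 * s ^ 2 ≤ Real.exp (-(b x)) := by
        have h6 : s ^ 2 ≤ PP (fun y => b y ^ 2) x := by
          refine le_trans ?_ (PP_sq_le b x hd0)
          refine pow_le_pow_left₀ hs0 ?_ 2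
          rw [hs]; linarith
        have h7 := hb.sub x hx.1 hx.2
        have h8 : 1 - s + C1 * s ^ 2 ≤ -b x + 1 := by
          rw [hs]
          rw [hs] at h6
          nlinarith
        exact h8.trans (Real.add_one_le_exp _)
      calc W * (1 - s + C1 * s ^ 2) ≤ W * Real.exp (-(b x)) :=
            mul_le_mul_of_nonneg_left h5 hWpos.le
        _ = _ := by
            rw [hW, ← Real.exp_add]
            congr 1
            simp only [List.map_cons, List.sum_cons]
            ring

end Pool.Agent.H24.BD
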